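import Mathlib
import Pool.Agent.Helper816.Growth
import Pool.Agent.Helper816.Count
import Pool.Agent.Helper816.Residues

set_option autoImplicit false

namespace Pool.Agent.Results.MP_87dd11_al.MaxRelations

/-- A numerical semigroup is a submonoid of `ℕ` with finite complement. -/
def IsNumericalSemigroup (Γ : AddSubmonoid ℕ) : Prop := ((Γ : Set ℕ)ᶜ).Finite

/-- `g 0 < g 1 < ... < g e` is the minimal generating set of `Γ`, listed increasingly. -/
structure IsMinimalGenerators (Γ : AddSubmonoid ℕ) (e : ℕ) (g : Fin (e + 1) → ℕ) : Prop where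
  strictMono : StrictMono g
  closure_eq : AddSubmonoid.closure (Set.range g) = Γ
  minimal : ∀ i, g i ∉ AddSubmonoid.closure (g '' {j | j ≠ i})

/-- The set of relations `R` generates the kernel congruence of the factorization map
`a ↦ ∑ i, a i * g i`. -/
def IsPresentation {e : ℕ} (g : Fin (e + 1) → ℕ)
    (R : Set ((Fin (e + 1) → ℕ) × (Fin (e + 1) → ℕ))) : Prop :=
  ∀ a b : Fin (e + 1) → ℕ,
    (addConGen (fun x y => (x, y) ∈ R)) a b ↔ ∑ i, a i * g i = ∑ i, b i * g i

/-- The number `ρ` of minimal relations: the least cardinality of a presentation. -/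
noncomputable def numRelations {e : ℕ} (g : Fin (e + 1) → ℕ) : ℕ∞ :=
  ⨅ R : {R : Set ((Fin (e + 1) → ℕ) × (Fin (e + 1) → ℕ)) // IsPresentation g R}, (R.1).encard

/-- `𝒲(w)`: the supremum of `ρ(Γ)` over all numerical semigroups `Γ` of width `w`. -/
noncomputable def maxRelations (w : ℕ) : ℕ∞ :=
  sSup {r : ℕ∞ | ∃ (Γ : AddSubmonoid ℕ) (e : ℕ) (g : Fin (e + 1) → ℕ),
    IsNumericalSemigroup Γ ∧ IsMinimalGenerators Γ e g ∧ g (Fin.last e) - g 0 = w ∧
      numRelations g = r}

/-! ### The upper bound -/

theorem upper {e : ℕ} {g : Fin (e + 1) → ℕ} (hg : StrictMono g) (h0 : 0 < g 0) :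
    numRelations g ≤ ((g (Fin.last e) - g 0 + 1).choose 2 : ℕ) := by
  have hpos : ∀ i, 0 < g i := fun i => lt_of_lt_of_le h0 (hg.monotone (Fin.zero_le i))
  rcases Nat.eq_zero_or_pos e with he | he
  · subst he
    have hP : IsPresentation g ∅ := by
      intro a b
      constructor
      · intro h
        have h1 : a = b := by
          have hle : addConGen (fun x y => (x, y) ∈
              (∅ : Set ((Fin (0 + 1) → ℕ) × (Fin (0 + 1) → ℕ)))) ≤ ⊥ := by
            rw [AddCon.addConGen_le]
            intro x y hxy
            simp at hxy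
          exact hle h
        rw [h1]
      · intro h
        have h1 : a = b := by
          funext i
          have h2 : i = 0 := by
            apply Fin.ext
            have := i.isLt
            simp only [Fin.val_zero]
            omega
          subst h2
          rw [Fin.sum_univ_one, Fin.sum_univ_one] at h
          exact Nat.eq_of_mul_eq_mul_right h0 h
        rw [h1]
        exact AddCon.refl _ _
    refine (iInf_le _ ⟨∅, hP⟩).trans ?_
    simp
  · obtain ⟨B, R, hB, hR, hgen⟩ := Pool.Agent.Helper816.Count.count (g := g) he hpos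
    obtain ⟨h1, h2⟩ := Pool.Agent.Helper816.Residues.residues he hg B hB
    have hP : IsPresentation g (R : Set ((Fin (e + 1) → ℕ) × (Fin (e + 1) → ℕ))) := hgen
    refine (iInf_le _ ⟨_, hP⟩).trans ?_
    rw [Set.encard_coe_eq_coe_finsetCard]
    have h3 : R.card ≤ (g (Fin.last e) - g 0 + 1).choose 2 := by
      generalize g (Fin.last e) - g 0 = w at *
      rw [Nat.choose_two_right, Nat.add_sub_cancel, Nat.le_div_iff_mul_le (by norm_num)]
      nlinarith
    exact_mod_cast h3

/-! ### The extremal semigroup -/

section Lower

variable (w : ℕ)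

/-- The generators `w+1, w+2, ..., 2w+1`. -/
def gens (i : Fin (w + 1)) : ℕ := w + 1 + i

/-- The semigroup `{0} ∪ {n | w + 1 ≤ n}`. -/
def semi : AddSubmonoid ℕ where
  carrier := {n | n = 0 ∨ w + 1 ≤ n}
  zero_mem' := Or.inl rfl
  add_mem' := by
    rintro a b ha hb
    simp only [Set.mem_ofPred_eq] at *
    omega

lemma semi_num : IsNumericalSemigroup (semi w) := by
  apply (Set.finite_lt_nat (w + 1)).subset
  intro n hn
  have hn' : ¬ (n = 0 ∨ w + 1 ≤ n) := hn
  show n < w + 1
  omega

lemma gens_mono : StrictMono (gens w) := by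
  intro i j hij
  have : (i : ℕ) < j := hij
  unfold gens
  omega

lemma gens_min : IsMinimalGenerators (semi w) w (gens w) where
  strictMono := gens_mono w
  closure_eq := by
    apply le_antisymm
    · rw [AddSubmonoid.closure_le]
      rintro _ ⟨i, rfl⟩
      show gens w i = 0 ∨ w + 1 ≤ gens w i
      unfold gens
      omega
    · intro n hn
      have hn' : n = 0 ∨ w + 1 ≤ n := hn
      clear hn
      induction n using Nat.strong_induction_on with
      | _ n ih =>
        rcases Nat.eq_zero_or_pos n with h | h
        · rw [h]; exact zero_mem _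
        · by_cases h2 : n ≤ 2 * w + 1
          · apply AddSubmonoid.subset_closure
            refine ⟨⟨n - (w + 1), by omega⟩, ?_⟩
            unfold gens
            simp only
            omega
          · have h3 := ih (n - (w + 1)) (by omega) (by omega)
            have h4 : gens w 0 ∈ AddSubmonoid.closure (Set.range (gens w)) :=
              AddSubmonoid.subset_closure ⟨0, rfl⟩
            have h5 := add_mem h3 h4
            have h6 : n - (w + 1) + gens w 0 = n := by
              unfold gens
              simp only [Fin.val_zero]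
              omega
            rwa [h6] at h5
  minimal := by
    intro i hi
    have key : ∀ n ∈ AddSubmonoid.closure (gens w '' {j | j ≠ i}),
        n = 0 ∨ (w + 1 ≤ n ∧ n ≠ gens w i) := by
      intro n hn
      induction hn using AddSubmonoid.closure_induction with
      | mem x hx =>
        obtain ⟨j, hj, rfl⟩ := hx
        right
        refine ⟨by unfold gens; omega, ?_⟩
        intro h
        exact hj ((gens_mono w).injective h)
      | zero => exact Or.inl rfl
      | add x y _ _ hx hy =>
        rcases hx with hx | ⟨hx, hx'⟩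
        · rw [hx, zero_add]; exact hy
        · rcases hy with hy | ⟨hy, hy'⟩
          · rw [hy, add_zero]; exact Or.inr ⟨hx, hx'⟩
          · right
            refine ⟨by omega, ?_⟩
            have := i.isLt
            unfold gens
            omega
    have hlt := key _ hi
    have hpos : 0 < gens w i := by unfold gens; omega
    rcases hlt with h | ⟨_, h⟩
    · omega
    · exact h rfl

/-- The exponent vector of a product of two generators other than the smallest one. -/
def pairVec (z : Sym2 (Fin w)) : Fin (w + 1) → ℕ :=
  Sym2.lift ⟨fun i j => Pi.single i.succ 1 + Pi.single j.succ 1, fun _ _ => add_comm _ _⟩ z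

lemma pairVec_mk (i j : Fin w) :
    pairVec w s(i, j) = Pi.single i.succ 1 + Pi.single j.succ 1 := rfl

lemma single_inj {i j : Fin (w + 1)} (h : (Pi.single i 1 : Fin (w + 1) → ℕ) = Pi.single j 1) :
    i = j := by
  by_contra hne
  have h1 := congrFun h i
  rw [Pi.single_eq_same, Pi.single_eq_of_ne hne] at h1
  omega

lemma pairVec_inj : Function.Injective (pairVec w) := by
  intro z z'
  induction z using Sym2.ind with
  | _ i j =>
    induction z' using Sym2.ind with
    | _ k l =>
      intro h
      rw [pairVec_mk, pairVec_mk] at h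
      have h1 := congrFun h i.succ
      simp only [Pi.add_apply, Pi.single_eq_same] at h1
      by_cases hk : i = k
      · subst hk
        have h2 := single_inj w (add_left_cancel h)
        rw [Fin.succ_injective _ h2]
      · by_cases hl : i = l
        · subst hl
          rw [add_comm (Pi.single k.succ 1)] at h
          have h2 := single_inj w (add_left_cancel h)
          rw [Fin.succ_injective _ h2, Sym2.eq_swap]
        · exfalso
          rw [Pi.single_eq_of_ne (fun h => hk (Fin.succ_injective _ h)),
            Pi.single_eq_of_ne (fun h => hl (Fin.succ_injective _ h))] at h1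
          omega

/-- The indicator of a length two factorization avoiding the smallest generator. -/
noncomputable def vec (a : Fin (w + 1) → ℕ) : Sym2 (Fin w) → ℚ := by
  classical exact fun z => if a = pairVec w z then 1 else 0

lemma vec_pair (z : Sym2 (Fin w)) : vec w (pairVec w z) = Pi.single z 1 := by
  classical
  funext z'
  unfold vec
  by_cases h : z' = z
  · subst h; simp
  · rw [Pi.single_eq_of_ne h, if_neg]
    intro h2
    exact h (pairVec_inj w h2).symm

lemma sum_pair (z : Sym2 (Fin w)) : ∑ i, pairVec w z i = 2 ∧ pairVec w z 0 = 0 := by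
  induction z using Sym2.ind with
  | _ i j =>
    rw [pairVec_mk]
    constructor
    · simp [Finset.sum_add_distrib]
    · simp

lemma vec_zero_of_len {a : Fin (w + 1) → ℕ} (h : ∑ i, a i ≠ 2) : vec w a = 0 := by
  classical
  funext z
  unfold vec
  rw [if_neg]
  · rfl
  · intro h2
    apply h
    rw [h2]
    exact (sum_pair w z).1

lemma vec_zero_of_pos {a : Fin (w + 1) → ℕ} (h : a 0 ≠ 0) : vec w a = 0 := by
  classical
  funext z
  unfold vec
  rw [if_neg]
  · rfl
  · intro h2
    apply h
    rw [h2]
    exact (sum_pair w z).2

lemma weight_bounds (a : Fin (w + 1) → ℕ) :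
    (∑ i, a i) * (w + 1) ≤ ∑ i, a i * gens w i ∧
      ∑ i, a i * gens w i ≤ (∑ i, a i) * (2 * w + 1) := by
  constructor
  · rw [Finset.sum_mul]
    apply Finset.sum_le_sum
    intro i _
    apply Nat.mul_le_mul_left
    unfold gens
    omega
  · rw [Finset.sum_mul]
    apply Finset.sum_le_sum
    intro i _
    apply Nat.mul_le_mul_left
    unfold gens
    have := i.isLt
    omega

lemma len_one {a : Fin (w + 1) → ℕ} (h : ∑ i, a i = 1) : ∃ i, a = Pi.single i 1 := by
  have h1 : ∃ i, a i ≠ 0 := by
    by_contra hcon
    push Not at hcon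
    simp [hcon] at h
  obtain ⟨i, hi⟩ := h1
  refine ⟨i, ?_⟩
  have h2 : ∑ j, a j = a i + ∑ j ∈ Finset.univ.erase i, a j :=
    (Finset.add_sum_erase _ _ (Finset.mem_univ i)).symm
  have h3 : ∑ j ∈ Finset.univ.erase i, a j = 0 := by omega
  rw [Finset.sum_eq_zero_iff] at h3
  funext j
  by_cases hj : j = i
  · subst hj
    rw [Pi.single_eq_same]
    omega
  · rw [Pi.single_eq_of_ne hj]
    exact h3 j (Finset.mem_erase.2 ⟨hj, Finset.mem_univ j⟩)

/-- Distinct factorizations of the same number have length at least two. -/
lemma len_two {a b : Fin (w + 1) → ℕ} (h : ∑ i, a i * gens w i = ∑ i, b i * gens w i)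
    (hne : a ≠ b) : 2 ≤ ∑ i, a i := by
  by_contra hlt
  have ha := weight_bounds w a
  have hb := weight_bounds w b
  have hA : ∑ i, a i = 0 ∨ ∑ i, a i = 1 := by omega
  rcases hA with h0 | h1
  · rw [h0, zero_mul, zero_mul] at ha
    rw [← h] at hb
    have hb0 : ∑ i, b i = 0 := by
      by_contra hb0
      have : 0 < (∑ i, b i) * (w + 1) := Nat.mul_pos (by omega) (by omega)
      omega
    rw [Finset.sum_eq_zero_iff] at h0 hb0
    apply hne
    funext i
    rw [h0 i (Finset.mem_univ i), hb0 i (Finset.mem_univ i)]
  · rw [h1, one_mul, one_mul] at ha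
    rw [← h] at hb
    have hb1 : ∑ i, b i = 1 := by
      rcases Nat.lt_trichotomy (∑ i, b i) 1 with h2 | h2 | h2
      · have h3 : ∑ i, b i = 0 := by omega
        rw [h3] at hb
        omega
      · exact h2
      · exfalso
        have h3 : 2 * (w + 1) ≤ (∑ i, b i) * (w + 1) := Nat.mul_le_mul_right _ (by omega)
        omega
    obtain ⟨i, hi⟩ := len_one w h1
    obtain ⟨j, hj⟩ := len_one w hb1
    have hsi : ∀ k : Fin (w + 1), ∑ t, (Pi.single k 1 : Fin (w + 1) → ℕ) t * gens w t
        = gens w k := by
      intro k
      rw [Finset.sum_eq_single k]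
      · simp
      · intro t _ ht
        rw [Pi.single_eq_of_ne ht, zero_mul]
      · intro hk
        exact absurd (Finset.mem_univ _) hk
    rw [hi, hj, hsi, hsi] at h
    have h4 := (gens_mono w).injective h
    apply hne
    rw [hi, hj, h4]

theorem lower : ((w + 1).choose 2 : ℕ) ≤ numRelations (gens w) := by
  classical
  apply le_iInf
  rintro ⟨R, hR⟩
  simp only
  by_cases hfin : R.Finite
  swap
  · rw [Set.encard_eq_top_iff.2 hfin]
    exact le_top
  let T : Set (Sym2 (Fin w) → ℚ) := (fun p => vec w p.1 - vec w p.2) '' R
  have hTfin : T.Finite := hfin.image _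
  let V : Submodule ℚ (Sym2 (Fin w) → ℚ) := Submodule.span ℚ T
  -- the congruence of pairs of equal weight and equal class modulo V
  let C : AddCon (Fin (w + 1) → ℕ) :=
    { r := fun x y => ∑ i, x i * gens w i = ∑ i, y i * gens w i ∧ vec w x - vec w y ∈ V
      iseqv := by
        refine ⟨fun x => ⟨rfl, by simp⟩, ?_, ?_⟩
        · rintro x y ⟨h1, h2⟩
          refine ⟨h1.symm, ?_⟩
          rw [← neg_sub]
          exact V.neg_mem h2
        · rintro x y z ⟨h1, h2⟩ ⟨h3, h4⟩
          refine ⟨h1.trans h3, ?_⟩
          have := V.add_mem h2 h4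
          rwa [sub_add_sub_cancel] at this
      add' := by
        have key : ∀ a b c : Fin (w + 1) → ℕ,
            (∑ i, a i * gens w i = ∑ i, b i * gens w i ∧ vec w a - vec w b ∈ V) →
            vec w (a + c) - vec w (b + c) ∈ V := by
          rintro a b c ⟨h1, h2⟩
          by_cases hc : c = 0
          · subst hc; simpa using h2
          by_cases hab : a = b
          · subst hab; simp
          have hcpos : 1 ≤ ∑ i, c i := by
            by_contra hlt
            apply hc
            have h3 : ∑ i, c i = 0 := by omega
            rw [Finset.sum_eq_zero_iff] at h3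
            funext i
            exact h3 i (Finset.mem_univ i)
          have hla := len_two w h1 hab
          have hlb := len_two w h1.symm (Ne.symm hab)
          rw [vec_zero_of_len w, vec_zero_of_len w]
          · simp
          · simp only [Pi.add_apply, Finset.sum_add_distrib]
            omega
          · simp only [Pi.add_apply, Finset.sum_add_distrib]
            omega
        rintro a b c d ⟨h1, h2⟩ ⟨h3, h4⟩
        refine ⟨?_, ?_⟩
        · simp only [Pi.add_apply, add_mul, Finset.sum_add_distrib]
          rw [h1, h3]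
        · have h5 := key a b c ⟨h1, h2⟩
          have h6 := key c d b ⟨h3, h4⟩
          rw [add_comm c b, add_comm d b] at h6
          have h7 := V.add_mem h5 h6
          rwa [sub_add_sub_cancel] at h7 }
  have hle : addConGen (fun x y => (x, y) ∈ R) ≤ C := by
    rw [AddCon.addConGen_le]
    intro x y hxy
    exact ⟨(hR x y).1 (AddConGen.Rel.of _ _ hxy), Submodule.subset_span ⟨(x, y), hxy, rfl⟩⟩
  have hall : ∀ a b : Fin (w + 1) → ℕ, ∑ i, a i * gens w i = ∑ i, b i * gens w i →
      vec w a - vec w b ∈ V := fun a b h => (hle ((hR a b).2 h)).2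
  have hwt : ∀ x y : Fin (w + 1) → ℕ, ∑ i, (x + y) i * gens w i =
      ∑ i, x i * gens w i + ∑ i, y i * gens w i := by
    intro x y
    simp [add_mul, Finset.sum_add_distrib]
  have hws : ∀ (k : Fin (w + 1)) (c : ℕ), ∑ t, (Pi.single k c : Fin (w + 1) → ℕ) t * gens w t
      = c * gens w k := by
    intro k c
    rw [Finset.sum_eq_single k]
    · simp
    · intro t _ ht
      rw [Pi.single_eq_of_ne ht, zero_mul]
    · intro hk
      exact absurd (Finset.mem_univ _) hk
  have hsing : ∀ z : Sym2 (Fin w), (Pi.single z 1 : Sym2 (Fin w) → ℚ) ∈ V := by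
    intro z
    obtain ⟨b, hb0, hb⟩ : ∃ b : Fin (w + 1) → ℕ, b 0 ≠ 0 ∧
        ∑ i, pairVec w z i * gens w i = ∑ i, b i * gens w i := by
      induction z using Sym2.ind with
      | _ i j =>
        rw [pairVec_mk]
        by_cases hij : (i.succ : Fin (w + 1)).val + (j.succ : Fin (w + 1)).val ≤ w
        · refine ⟨Pi.single 0 1 + Pi.single ⟨(i.succ : Fin (w + 1)).val +
            (j.succ : Fin (w + 1)).val, by omega⟩ 1, by simp, ?_⟩
          rw [hwt, hwt, hws, hws, hws, hws]
          simp only [gens, Fin.val_zero]
          ring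
        · have h1 := (i.succ : Fin (w + 1)).isLt
          have h2 := (j.succ : Fin (w + 1)).isLt
          refine ⟨Pi.single 0 2 + Pi.single ⟨(i.succ : Fin (w + 1)).val +
            (j.succ : Fin (w + 1)).val - (w + 1), by omega⟩ 1, by simp, ?_⟩
          rw [hwt, hwt, hws, hws, hws, hws]
          simp only [gens, Fin.val_zero]
          omega
    have h1 := hall _ _ hb
    rw [vec_pair, vec_zero_of_pos w hb0, sub_zero] at h1
    exact h1
  have htop : V = ⊤ := by
    rw [eq_top_iff]
    intro x _
    have hx : x = ∑ z, x z • (Pi.single z 1 : Sym2 (Fin w) → ℚ) := by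
      funext z'
      rw [Finset.sum_apply, Finset.sum_eq_single z']
      · simp
      · intro z _ hz
        simp [Pi.single_eq_of_ne hz.symm]
      · intro h
        exact absurd (Finset.mem_univ _) h
    rw [hx]
    exact V.sum_mem (fun z _ => V.smul_mem _ (hsing z))
  have hrank : (w + 1).choose 2 = Module.finrank ℚ V := by
    rw [htop, finrank_top, Module.finrank_pi, Sym2.card, Fintype.card_fin]
  have hspan : Module.finrank ℚ V ≤ hTfin.toFinset.card := by
    have h1 : V = Submodule.span ℚ ((hTfin.toFinset : Finset _) : Set (Sym2 (Fin w) → ℚ)) := by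
      rw [Set.Finite.coe_toFinset]
    rw [h1]
    exact finrank_span_finset_le_card _
  have hcard : hTfin.toFinset.card ≤ hfin.toFinset.card := by
    have h1 : hTfin.toFinset = hfin.toFinset.image (fun p => vec w p.1 - vec w p.2) := by
      ext x
      simp [T]
    rw [h1]
    exact Finset.card_image_le
  rw [hfin.encard_eq_coe_toFinset_card]
  have : (w + 1).choose 2 ≤ hfin.toFinset.card := by omega
  exact_mod_cast this

end Lower

/-- For every `w`, the supremum of the number of minimal relations over all numerical
semigroups of width `w` is `w(w+1)/2`. -/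
theorem result (w : ℕ) : maxRelations w = ((w + 1).choose 2 : ℕ) := by
  apply le_antisymm
  · apply sSup_le
    rintro r ⟨Γ, e, g, _, hmin, hw, rfl⟩
    have h0 : 0 < g 0 := by
      rcases Nat.eq_zero_or_pos (g 0) with h | h
      · exfalso
        apply hmin.minimal 0
        rw [h]
        exact zero_mem _
      · exact h
    have h := upper hmin.strictMono h0
    rwa [hw] at h
  · refine (lower w).trans (le_sSup ?_)
    refine ⟨semi w, w, gens w, semi_num w, gens_min w, ?_, rfl⟩
    simp only [gens, Fin.val_last, Fin.val_zero]
    omega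

end Pool.Agent.Results.MP_87dd11_al.MaxRelations
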